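import Pool.Agent.Helper25_CON.Stmts

/-!
Squad CON, module E_SHO: short roots
-/

set_option autoImplicit false

namespace Pool.Agent.CON.H21

open Pool.Agent.CON

section

variable {M : Type} [AddCommGroup M] {b : M → M → ℤ} (h : PD b)

include h

theorem sho_zero (x : M) : b 0 x = 0 := by
  have := h.add_left 0 0 x
  rw [add_zero] at this
  linarith

theorem sho_neg (x y : M) : b (-x) y = - b x y := by
  have h1 := h.add_left x (-x) y
  rw [add_neg_cancel, sho_zero h] at h1
  linarith

theorem sho_nsmul (k : ℕ) (x y : M) : b (k • x) y = k * b x y := by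
  induction k with
  | zero => rw [zero_smul, sho_zero h]; simp
  | succ n ih =>
    rw [add_smul, one_smul, h.add_left, ih]
    push_cast
    ring

theorem sho_smul (k : ℤ) (x y : M) : b (k • x) y = k * b x y := by
  obtain ⟨n, rfl | rfl⟩ := k.eq_nat_or_neg
  · rw [natCast_zsmul, sho_nsmul h]
  · rw [neg_smul, sho_neg h, natCast_zsmul, sho_nsmul h]
    ring

theorem sho_sub (x y z : M) : b (x - y) z = b x z - b y z := by
  rw [sub_eq_add_neg, h.add_left, sho_neg h]
  ring

/-- The product with a reflected vector. -/
theorem sho_prod {α β : M} {k : ℤ} (hk : 2 * b α β = k * b α α) {y : M} {m : ℤ}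
    (hm : 2 * b α y = m * b α α) : b (β - k • α) y = b β (y - m • α) := by
  rw [sho_sub h, sho_smul h, h.symm β (y - m • α), sho_sub h, sho_smul h, h.symm y β]
  have h1 : 2 * (k * b α y) = 2 * (m * b α β) := by
    calc 2 * (k * b α y) = k * (2 * b α y) := by ring
      _ = m * (k * b α α) := by rw [hm]; ring
      _ = 2 * (m * b α β) := by rw [← hk]; ring
  linarith

theorem sho_norm {α β : M} {k : ℤ} (hk : 2 * b α β = k * b α α) :
    b (β - k • α) (β - k • α) = b β β := by
  rw [sho_sub h, sho_smul h, h.symm β (β - k • α), h.symm α (β - k • α), sho_sub h, sho_smul h,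
    sho_sub h, sho_smul h, h.symm β α]
  linear_combination (-k) * hk

/-- The roots. -/
def Phi (b : M → M → ℤ) : Set M := {t : M | t ≠ 0 ∧ ∀ s, b t t ∣ 2 * b t s}

theorem sho_refl {α β : M} (hα : α ∈ Phi b) (hβ : β ∈ Phi b) {k : ℤ}
    (hk : 2 * b α β = k * b α α) : β - k • α ∈ Phi b := by
  constructor
  · intro h0
    have h1 := sho_norm h hk
    rw [h0, sho_zero h] at h1
    have h2 := h.pos β hβ.1
    omega
  · intro y
    obtain ⟨m, hm⟩ := hα.2 y
    rw [sho_norm h hk, sho_prod h hk (m := m) (by rw [hm]; ring)]
    exact hβ.2 _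

theorem sho_main (hG : RGM b) : ∃ R, RS b R := by
  classical
  set R : Set M := {a | a ∈ Phi b ∧ ∀ c ∈ Phi b, b a c ≠ 0 → b a a ≤ b c c} with hR
  have key : ∀ (N : ℕ) (c : M), c ∈ Phi b → b c c ≤ N → c ∈ AddSubgroup.closure R := by
    intro N
    induction N with
    | zero =>
      intro c hc hN
      have := h.pos c hc.1
      push_cast at hN
      omega
    | succ n ih =>
      intro c hc hN
      by_cases hcR : c ∈ R
      · exact AddSubgroup.subset_closure hcR
      · have h1 : ∃ d ∈ Phi b, b c d ≠ 0 ∧ b d d < b c c := by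
          by_contra hcon
          push Not at hcon
          exact hcR ⟨hc, hcon⟩
        obtain ⟨d, hd, hcd, hlt⟩ := h1
        obtain ⟨j, hj⟩ := hc.2 d
        have hj' : 2 * b c d = j * b c c := by rw [hj]; ring
        have hc0 := h.pos c hc.1
        have hj0 : j ≠ 0 := by
          rintro rfl
          apply hcd
          omega
        have h2 : 0 ≤ 4 * b d d - j ^ 2 * b c c := by
          have h3 : b ((2 : ℤ) • d - j • c) ((2 : ℤ) • d - j • c) = 4 * b d d - j ^ 2 * b c c := by
            rw [sho_sub h, sho_smul h, sho_smul h, h.symm d (_ - _), h.symm c (_ - _), sho_sub h,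
              sho_sub h, sho_smul h, sho_smul h, sho_smul h, sho_smul h, h.symm d c]
            linear_combination (-2 * j) * hj'
          rw [← h3]
          by_cases h4 : (2 : ℤ) • d - j • c = 0
          · rw [h4, sho_zero h]
          · exact (h.pos _ h4).le
        have h5 : j ^ 2 < 4 := by
          by_contra h6
          push Not at h6
          nlinarith
        have h7 : j = 1 ∨ j = -1 := by
          have h8 : j < 2 := by nlinarith
          have h9 : -2 < j := by nlinarith
          omega
        have hd1 : d ∈ AddSubgroup.closure R := ih d hd (by push_cast at hN; omega)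
        have hs1 : d - j • c ∈ AddSubgroup.closure R := by
          apply ih _ (sho_refl h hc hd hj')
          rw [sho_norm h hj']
          push_cast at hN
          omega
        rcases h7 with rfl | rfl
        · have e : c = d - (d - (1 : ℤ) • c) := by rw [one_smul]; abel
          rw [e]
          exact AddSubgroup.sub_mem _ hd1 hs1
        · have e : c = (d - (-1 : ℤ) • c) - d := by rw [neg_smul, one_smul]; abel
          rw [e]
          exact AddSubgroup.sub_mem _ hs1 hd1
  refine ⟨R, ?_, fun α hα => hα.1.1, ?_, fun α hα β _ => hα.1.2 β, ?_⟩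
  · intro x
    refine (AddSubgroup.closure_le (K := AddSubgroup.closure R)).mpr ?_ (hG x)
    intro t ht
    exact key (b t t).toNat t ht (by omega)
  · intro α hα β hβ hne
    apply le_antisymm
    · exact hα.2 β hβ.1 hne
    · exact hβ.2 α hα.1 (by rw [h.symm]; exact hne)
  · intro α hα β hβ k hk
    refine ⟨sho_refl h hα.1 hβ.1 hk, ?_⟩
    intro c hc hne
    obtain ⟨m, hm⟩ := hα.1.2 c
    have hm' : 2 * b α c = m * b α α := by rw [hm]; ring
    rw [sho_norm h hk, ← sho_norm h hm']
    apply hβ.2 _ (sho_refl h hα.1 hc hm')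
    rw [← sho_prod h hk hm']
    exact hne

end

/-- Module E_SHO. -/
theorem e_sho : E_SHO := fun _ _ _ h hG => sho_main h hG

end Pool.Agent.CON.H21
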