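import Pool.Agent.Helper25_CON.Stmts

/-!
Squad CON, module B_TRN: (m,μ) μ is a translation vector of W(L).
-/

set_option linter.unusedVariables false

noncomputable section

namespace Pool.Agent.CON.H21

open Pool.Agent.H25Cong

variable {n : ℕ}

lemma smulZ {L : Submodule ℤ (V n)} (z : ℤ) {x : V n} (hx : x ∈ L) : ((z : ℤ) : ℝ) • x ∈ L := by
  rw [Int.cast_smul_eq_zsmul]
  exact L.smul_mem z hx

lemma root_of_two {L : Submodule ℤ (V n)} (hL : EvenLat L) {v : V n} (hv : v ∈ L)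
    (h2 : B v v = 2) : Root L v := by
  refine ⟨hv, by rw [h2]; norm_num, ?_, ?_⟩
  · intro x hx
    obtain ⟨k, hk⟩ := hL.int v hv x hx
    exact ⟨k, by rw [hk, h2]; ring⟩
  · intro k c hc hvc
    obtain ⟨j, hj⟩ := hL.even c hc
    rw [hvc, B_smul_left, B_smul_right, hj] at h2
    have h3 : (k : ℤ) * (k * j) = 1 := by
      have : (k : ℝ) * (k * j) = 1 := by linarith
      exact_mod_cast this
    have h4 : (k : ℤ) ∣ 1 := ⟨_, h3.symm⟩
    have h5 : k ∣ 1 := by exact_mod_cast h4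
    exact Nat.dvd_one.1 h5

lemma S_mem {L : Submodule ℤ (V n)} {v : V n} (hv : Root L v) {x : V n} (hx : x ∈ L) :
    S v x ∈ L := by
  obtain ⟨h1, h2, h3, -⟩ := hv
  obtain ⟨k, hk⟩ := h3 x hx
  rw [S_apply]
  have : 2 * B x v / B v v = (k : ℝ) := by
    rw [B_comm x v, hk]
    field_simp
  rw [this]
  exact L.sub_mem hx (smulZ k h1)

lemma S_OLat {L : Submodule ℤ (V n)} {v : V n} (hv : Root L v) : S v ∈ OLat L := by
  refine ⟨S_isom v, fun x => ⟨fun h => ?_, fun h => S_mem hv h⟩⟩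
  have := S_mem hv h
  rwa [S_S] at this

lemma E_mem {L : Submodule ℤ (V n)} (hL : EvenLat L) {e m : V n} (he' : e ∈ L) (hm' : m ∈ L)
    (he : B e e = 0) (hm : B m e = 0) {x : V n} (hx : x ∈ L) : E e m he hm x ∈ L := by
  rw [E_apply]
  obtain ⟨t, ht⟩ := hL.int x hx e he'
  obtain ⟨s, hs⟩ := hL.int x hx m hm'
  obtain ⟨q, hq⟩ := hL.even m hm'
  have h1 : B m m / 2 * B x e = ((q * t : ℤ) : ℝ) := by
    rw [hq, ht]; push_cast; ring
  rw [h1, ht, hs]
  exact L.sub_mem (L.sub_mem (L.add_mem hx (smulZ t hm')) (smulZ s he')) (smulZ _ he')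

lemma E_OLat {L : Submodule ℤ (V n)} (hL : EvenLat L) {e m : V n} (he' : e ∈ L) (hm' : m ∈ L)
    (he : B e e = 0) (hm : B m e = 0) : E e m he hm ∈ OLat L := by
  refine ⟨E_isom e m he hm, fun x => ⟨fun h => ?_, fun h => E_mem hL he' hm' he hm h⟩⟩
  have hm2 : B (-m) e = 0 := by rw [B_neg_left, hm, neg_zero]
  have h1 := E_mem hL he' (L.neg_mem hm') he hm2 h
  rw [← E_inv e m he hm hm2, inv_ap] at h1
  exact h1

/-- the congruence -/
lemma trn_congr {L : Submodule ℤ (V n)} (hL : EvenLat L) {N : ℕ} {e f m μ : V n}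
    (heL : e ∈ L) (hfL : f ∈ L) (he : B e e = 0) (hf : B f f = 0) (hef : B e f = -1)
    (hmL : m ∈ L) (hme : B m e = 0) (hmf : B m f = 0) (hμL : μ ∈ L) (hμe : B μ e = 0)
    (hμf : B μ f = 0) {k r : ℤ} (hk : B μ μ = 2 + 2 * N ^ 2 * k) (hr : B m μ = r)
    {v : V n} (hv : v = μ + (N : ℝ) • e + ((N : ℝ) * k) • f) (hvv : B v v = 2)
    (hh : B ((r : ℝ) • μ) e = 0) (x : V n) (hx : x ∈ L) :
    ∃ y ∈ L, S (E e m he hme v) (S v x) - E e ((r : ℝ) • μ) he hh x = (N : ℝ) • y := by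
  obtain ⟨s, hs⟩ := hL.int x hx μ hμL
  obtain ⟨t, ht⟩ := hL.int x hx e heL
  obtain ⟨u, hu⟩ := hL.int x hx f hfL
  obtain ⟨w, hw⟩ := hL.int x hx m hmL
  obtain ⟨q, hq⟩ := hL.even m hmL
  have hfe : B f e = -1 := by rw [B_comm]; exact hef
  have hem : B e m = 0 := by rw [B_comm]; exact hme
  have hfm : B f m = 0 := by rw [B_comm]; exact hmf
  have heμ : B e μ = 0 := by rw [B_comm]; exact hμe
  have hfμ : B f μ = 0 := by rw [B_comm]; exact hμf
  have hμm : B μ m = r := by rw [B_comm]; exact hr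
  have hve : B v e = -((N : ℝ) * k) := by
    rw [hv]
    simp only [B_add_left, B_smul_left, hμe, he, hfe]
    ring
  have hvm : B v m = r := by
    rw [hv]
    simp only [B_add_left, B_smul_left, hμm, hem, hfm]
    ring
  have hxv : B x v = s + N * t + N * k * u := by
    rw [hv]
    simp only [B_add_right, B_smul_right, hs, ht, hu]
  set g := E e m he hme v with hg
  have hgv : g = v - ((N : ℝ) * k) • m - (r : ℝ) • e + ((q : ℝ) * N * k) • e := by
    rw [hg, E_apply, hve, hvm, hq]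
    ext i
    simp only [Pi.add_apply, Pi.sub_apply, Pi.smul_apply, smul_eq_mul]
    ring
  have hgg : B g g = 2 := by rw [hg, E_isom e m he hme v v, hvv]
  have hxg : B x g = s + N * t + N * k * u - N * k * w - r * t + q * N * k * t := by
    rw [hgv]
    simp only [B_add_right, B_sub_right, B_smul_right, hxv, hw, ht]
  have hvg : B v g = 2 - q * N ^ 2 * k ^ 2 := by
    rw [hgv]
    simp only [B_add_right, B_sub_right, B_smul_right, hvv, hvm, hve]
    ring
  have h1 : S v x = x - (B x v) • v := by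
    rw [S_apply, hvv]
    congr 2
    ring
  have h2 : ∀ y, S g y = y - (B y g) • g := by
    intro y
    rw [S_apply, hgg]
    congr 2
    ring
  have h3 : S g (S v x) = x - (B x v) • v - (B x g - B x v * B v g) • g := by
    rw [h2, h1, B_sub_left, B_smul_left]
  have h4 : E e ((r : ℝ) • μ) he hh x = x + ((t : ℝ) * r) • μ - ((r : ℝ) * s) • e -
      ((r : ℝ) ^ 2 * (1 + N ^ 2 * k) * t) • e := by
    rw [E_apply]
    simp only [B_smul_left, B_smul_right, hs, ht, hk]
    ext i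
    simp only [Pi.add_apply, Pi.sub_apply, Pi.smul_apply, smul_eq_mul]
    ring
  -- the integers
  let α : ℤ := t + k * u
  let β : ℤ := t + k * u - k * w + q * k * t
  let γ : ℤ := - (q * N * k ^ 2)
  let δ : ℤ := 2 * α + s * γ + N * α * γ
  let c1 : ℤ := -α - β + δ
  let c2 : ℤ := -(s + N * α) + β * r - (s - r * t + N * β) * (1 + q * k) - δ * r +
    (2 * s + N * δ) * (1 + q * k) + r ^ 2 * N * k * t
  let c3 : ℤ := -(s + N * α) * k - (s - r * t + N * β) * k + (2 * s + N * δ) * k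
  let c4 : ℤ := (s - r * t + N * β) * k - (2 * s + N * δ) * k
  refine ⟨(c1 : ℝ) • μ + (c2 : ℝ) • e + (c3 : ℝ) • f + (c4 : ℝ) • m, ?_, ?_⟩
  · exact L.add_mem (L.add_mem (L.add_mem (smulZ _ hμL) (smulZ _ heL)) (smulZ _ hfL))
      (smulZ _ hmL)
  · rw [h3, h4, hxv, hxg, hvg, hgv, hv]
    ext i
    simp only [Pi.add_apply, Pi.sub_apply, Pi.smul_apply, smul_eq_mul, c1, c2, c3, c4, δ, γ, β, α]
    push_cast
    ring

theorem b_TRN : B_TRN := by
  intro n L N e f m μ hL hN hc heL hfL he hf hef hmL hme hmf hμL hμe hμf hk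
  obtain ⟨k, hk⟩ := hk
  obtain ⟨r, hr⟩ := hL.int m hmL μ hμL
  have hh : B (B m μ • μ) e = 0 := by rw [B_smul_left, hμe, mul_zero]
  refine ⟨he, hh, ?_⟩
  have hh' : B ((r : ℝ) • μ) e = 0 := by rw [B_smul_left, hμe, mul_zero]
  have hEe : E e (B m μ • μ) he hh = E e ((r : ℝ) • μ) he hh' :=
    E_congr rfl (by rw [hr]) _ _ _ _
  rw [hEe]
  have hfe : B f e = -1 := by rw [B_comm]; exact hef
  have heμ : B e μ = 0 := by rw [B_comm]; exact hμe
  have hfμ : B f μ = 0 := by rw [B_comm]; exact hμf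
  obtain ⟨v, hv⟩ : ∃ v : V n, v = μ + (N : ℝ) • e + ((N : ℝ) * k) • f := ⟨_, rfl⟩
  have hvL : v ∈ L := by
    rw [hv]
    have h1 : ((N : ℝ)) • e ∈ L := by
      have := smulZ (L := L) (N : ℤ) heL
      exact_mod_cast this
    have h2 : ((N : ℝ) * k) • f ∈ L := by
      have := smulZ (L := L) ((N : ℤ) * k) hfL
      exact_mod_cast this
    exact L.add_mem (L.add_mem hμL h1) h2
  have hvv : B v v = 2 := by
    rw [hv]
    simp only [B_add_left, B_add_right, B_smul_left, B_smul_right, he, hf, hef, hfe, hμe, hμf,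
      heμ, hfμ, hk]
    ring
  set g := E e m he hme with hg
  have hgL : g v ∈ L := E_mem hL heL hmL he hme hvL
  have hgg : B (g v) (g v) = 2 := by rw [hg, E_isom e m he hme v v, hvv]
  have hRv := root_of_two hL hvL hvv
  have hRg := root_of_two hL hgL hgg
  set h := S (g v) * S v with hhd
  have hhW : h ∈ WL L :=
    mul_mem (Subgroup.subset_closure ⟨g v, hRg, rfl⟩) (Subgroup.subset_closure ⟨v, hRv, rfl⟩)
  have hhO : h ∈ OLat L := mul_mem (S_OLat hRg) (S_OLat hRv)
  set G := E e ((r : ℝ) • μ) he hh' with hG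
  have hGO : G ∈ OLat L := E_OLat hL heL (smulZ r hμL) he hh'
  have hone : IsOneMod L N (G * h⁻¹) := by
    intro x hx
    have hy : h⁻¹ x ∈ L := ((inv_mem hhO).2 x).2 hx
    obtain ⟨y, hyL, hy2⟩ := trn_congr hL heL hfL he hf hef hmL hme hmf hμL hμe hμf hk hr hv hvv
      hh' (h⁻¹ x) hy
    refine ⟨-y, L.neg_mem hyL, ?_⟩
    have h3 : S (g v) (S v (h⁻¹ x)) = x := by
      have : h (h⁻¹ x) = x := ap_inv h x
      rw [hhd, mul_ap] at this
      rw [hhd]
      exact this
    rw [h3] at hy2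
    rw [mul_ap, smul_neg, ← hy2]
    abel
  obtain ⟨w, hw, hs⟩ := hc _ (mul_mem hGO (inv_mem hhO)) hone
  have hwh : w * h ∈ WL L := mul_mem hw hhW
  rcases hs with hs | hs
  · have : G = w * h := by
      ext1 x
      rw [mul_ap, hs, mul_ap, inv_ap]
    rw [this]
    exact hwh
  · exfalso
    have h1 : ∀ x, (w * h) x = - G x := by
      intro x
      rw [mul_ap, hs, mul_ap, inv_ap]
    obtain ⟨-, h2⟩ := time_pos (R := {a | Root L a}) (fun a ha => ha.2.1) hwh
    set x0 : V n := e + f with hx0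
    have hx0t : B x0 x0 = -2 := by
      rw [hx0]
      simp only [B_add_left, B_add_right, he, hf, hef, hfe]
      ring
    have hμx : B μ x0 = 0 := by rw [hx0, B_add_right, hμe, hμf, add_zero]
    have hxμ : B x0 μ = 0 := by rw [B_comm]; exact hμx
    have hμμ : 0 ≤ B μ μ := perp_nonneg (v := x0) (by rw [hx0t]; norm_num) hμx
    have hx0e : B x0 e = -1 := by rw [hx0, B_add_left, he, hfe]; ring
    have hex0 : B e x0 = -1 := by rw [B_comm]; exact hx0e
    have hGx : B (G x0) x0 < 0 := by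
      rw [hG, E_apply]
      simp only [B_add_left, B_sub_left, B_smul_left, B_smul_right, hx0t, hx0e, hex0, hμx, hxμ]
      nlinarith [mul_nonneg (sq_nonneg (r : ℝ)) hμμ]
    have hGiso : Isom G := E_isom _ _ he hh'
    have h3 := time_mul (x := G x0) (y := x0) (by rw [hGiso, hx0t]; norm_num)
      (by rw [hx0t]; norm_num) hGx
    rcases lt_trichotomy (x0 0) 0 with h4 | h4 | h4
    · have h5 := h2 (-x0) (by rw [B_neg_left, B_neg_right, hx0t]; norm_num)
        (by simpa using h4)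
      rw [h1, map_neg, neg_neg] at h5
      nlinarith
    · rw [h4, mul_zero] at h3
      exact lt_irrefl _ h3
    · have h5 := h2 x0 (by rw [hx0t]; norm_num) h4
      rw [h1, Pi.neg_apply] at h5
      nlinarith

end Pool.Agent.CON.H21

end
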