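import Pool.Agent.Helper25_CON.Stmts

/-!
Squad CON, module C_INV: w is a product of reflections in its inversion set.
-/

noncomputable section

namespace Pool.Agent.CON.H21

open Pool.Agent.H25Cong

variable {n : ℕ}

/-- the inversion set -/
def InvS (R : Set (V n)) (v : V n) (w : V n ≃ₗ[ℝ] V n) : Set (V n) :=
  {b | b ∈ R ∧ 0 < B b v ∧ B b (w v) < 0}

lemma rev_prod (l : List (V n)) : (l.reverse.map S).prod = ((l.map S).prod)⁻¹ := by
  induction l with
  | nil => simp
  | cons a t ih =>
    have h1 : ((a :: t).map S).prod = S a * (t.map S).prod := by
      rw [List.map_cons, List.prod_cons]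
    have h2 : ((a :: t).reverse.map S).prod = (t.reverse.map S).prod * S a := by
      rw [List.reverse_cons, List.map_append, List.prod_append]
      simp
    rw [h1, h2, mul_inv_rev, ih, S_inv]

lemma B_w (w : V n ≃ₗ[ℝ] V n) (hw : Isom w) (b v : V n) : B b (w v) = B (w⁻¹ b) v := by
  rw [← hw (w⁻¹ b) v, ap_inv]

lemma inv_aux {R : Set (V n)} {v : V n} (h : RootSys R v) : ∀ (k : ℕ) (l : List (V n)),
    l.length = k → (∀ a ∈ l, Simp R v a) →
    (l.map S).prod ∈ Subgroup.closure (S '' (InvS R v (l.map S).prod)) := by
  intro k
  induction k using Nat.strong_induction_on with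
  | _ k ih =>
    intro l hk hl
    cases l with
    | nil =>
      rw [List.map_nil, List.prod_nil]
      exact Subgroup.one_mem _
    | cons a t =>
      have ha : Simp R v a := hl a (by simp)
      have hapos := h.pos a ha.1
      have ht : ∀ c ∈ t, Simp R v c := fun c hc => hl c (by simp [hc])
      have hiso : Isom ((t.map S).prod) := prod_isom t
      have htr : ∀ c ∈ t.reverse, Simp R v c := fun c hc => ht c (by simpa using hc)
      have hmem : (t.reverse.map S).prod a ∈ R :=
        prod_mem h t.reverse (fun c hc => (htr c hc).1) ha.1
      have hBa : B a ((t.map S).prod v) = B ((t.reverse.map S).prod a) v := by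
        rw [B_w _ hiso, rev_prod]
      rw [List.map_cons, List.prod_cons]
      rcases lt_or_gt_of_ne (h.ne _ hmem) with h1 | h1
      · -- w'^-1 a is negative: shorten
        obtain ⟨l1, c, l2, h2, h3⟩ := exch h t.reverse htr ha.1 ha.2.1 h1
        have h2' : t = l2.reverse ++ c :: l1.reverse := by
          have := congrArg List.reverse h2
          simpa using this
        set u := (l2.reverse.map S).prod with hu
        have huI : Isom u := prod_isom _
        have huc : u c = a := by
          rw [hu, rev_prod, ← h3, inv_ap]
        have h4 : S a * u = u * S c := by
          rw [← huc, ← S_conj huI, inv_mul_cancel_right]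
        have h5 : S a * (t.map S).prod = ((l2.reverse ++ l1.reverse).map S).prod := by
          rw [h2', List.map_append, List.prod_append, List.map_cons, List.prod_cons,
            List.map_append, List.prod_append, ← hu, ← mul_assoc, h4, mul_assoc, ← mul_assoc (S c),
            S_mul_self, one_mul]
        rw [h5]
        refine ih _ ?_ _ rfl ?_
        · rw [← hk, h2']
          simp only [List.length_append, List.length_reverse, List.length_cons]
          omega
        · intro d hd
          apply ht
          rw [h2']
          simp only [List.mem_append, List.mem_cons] at hd ⊢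
          tauto
      · -- a is inverted by w
        have hw'a : 0 < B a ((t.map S).prod v) := by rw [hBa]; exact h1
        have hwa : B a ((S a * (t.map S).prod) v) < 0 := by
          rw [mul_ap]
          have : B a (S a ((t.map S).prod v)) = - B a ((t.map S).prod v) := by
            have h6 := S_isom a (S a a) ((t.map S).prod v)
            rw [S_S, S_self a (ne_of_gt hapos), B_neg_left] at h6
            exact h6
          rw [this]; linarith
        have haI : a ∈ InvS R v (S a * (t.map S).prod) := ⟨ha.1, ha.2.1, hwa⟩
        have hSa : S a ∈ Subgroup.closure (S '' (InvS R v (S a * (t.map S).prod))) :=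
          Subgroup.subset_closure ⟨a, haI, rfl⟩
        have hih := ih t.length (by rw [← hk]; simp) t rfl ht
        have hconj : ∀ g ∈ Subgroup.closure (S '' (InvS R v (t.map S).prod)),
            S a * g * S a ∈ Subgroup.closure (S '' (InvS R v (S a * (t.map S).prod))) := by
          intro g hg
          induction hg using Subgroup.closure_induction with
          | mem g hg =>
            obtain ⟨b, hb, rfl⟩ := hg
            have hSb : S a * S b * S a = S (S a b) := by
              have := S_conj (g := S a) (S_isom a) b
              rwa [S_inv] at this
            rw [hSb]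
            apply Subgroup.subset_closure
            refine ⟨S a b, ⟨h.refl a ha.1 b hb.1, ?_, ?_⟩, rfl⟩
            · have hne := h.ne _ (h.refl a ha.1 b hb.1)
              rcases lt_or_gt_of_ne hne with h7 | h7
              · exfalso
                have := ha.2.2 b hb.1 hb.2.1 h7
                rw [this] at hb
                have := hb.2.2
                linarith
              · exact h7
            · rw [mul_ap, S_isom]
              exact hb.2.2
          | one =>
            rw [mul_one, S_mul_self]
            exact Subgroup.one_mem _
          | mul x y _ _ hx hy =>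
            have : S a * (x * y) * S a = (S a * x * S a) * (S a * y * S a) := by
              have : (S a * x * S a) * (S a * y * S a) = S a * x * (S a * S a) * y * S a := by
                group
              rw [this, S_mul_self]; group
            rw [this]
            exact mul_mem hx hy
          | inv x _ hx =>
            have : S a * x⁻¹ * S a = (S a * x * S a)⁻¹ := by
              rw [mul_inv_rev, mul_inv_rev, S_inv, mul_assoc]
            rw [this]
            exact inv_mem hx
        have h8 := mul_mem (hconj _ hih) hSa
        rwa [mul_assoc, S_mul_self, mul_one] at h8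

theorem c_INV : C_INV := by
  intro n R v w h hw
  have h1 : w ∈ Subgroup.closure (S '' {a | Simp R v a}) := by
    have : Subgroup.closure (S '' R) ≤ Subgroup.closure (S '' {a | Simp R v a}) := by
      rw [Subgroup.closure_le]
      rintro g ⟨r, hr, rfl⟩
      exact gen h _ r hr rfl
    exact this hw
  have h2 : ∃ l' : List (V n), (∀ a ∈ l', Simp R v a) ∧ (l'.map S).prod = w := by
    clear hw
    induction h1 using Subgroup.closure_induction'' with
    | mem g hg =>
      obtain ⟨a, ha, rfl⟩ := hg
      exact ⟨[a], by simpa using ha, by simp⟩
    | inv_mem g hg =>
      obtain ⟨a, ha, rfl⟩ := hg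
      exact ⟨[a], by simpa using ha, by simp [S_inv]⟩
    | one => exact ⟨[], by simp, by simp⟩
    | mul g g' _ _ h3 h4 =>
      obtain ⟨l1, h5, h6⟩ := h3
      obtain ⟨l2, h7, h8⟩ := h4
      refine ⟨l1 ++ l2, ?_, by rw [List.map_append, List.prod_append, h6, h8]⟩
      intro c hc
      rcases List.mem_append.1 hc with hc | hc
      · exact h5 c hc
      · exact h7 c hc
  obtain ⟨l, hl, rfl⟩ := h2
  exact inv_aux h _ l rfl hl

end Pool.Agent.CON.H21

end
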